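import Pool.Agent.H705.FP.Stm

/-! # Task UTA of the project FP (helper92, for helper705; adapted from T_TAIL of helper339) -/

set_option autoImplicit false

namespace Pool.Agent.H92.FP

open MeasureTheory ProbabilityTheory Filter Topology Finset
open Pool.Agent.H705
open Pool.Agent.H705.FP
open Pool.Agent.H705.RO (pe Amp)

theorem pe_pos (m : ℕ) : 0 < pe m := by
  unfold pe
  have h : (0 : ℝ) < (m : ℝ) + 2 := by positivity
  have h2 : 1 / ((m : ℝ) + 2) < 1 := by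
    rw [div_lt_one h]
    have : (0 : ℝ) ≤ m := Nat.cast_nonneg m
    linarith
  linarith

theorem pe_le (m : ℕ) : pe m ≤ 1 := by
  unfold pe
  have h : (0 : ℝ) < 1 / ((m : ℝ) + 2) := by positivity
  linarith

theorem amp_block {a : ℕ → ℝ} (ha : Amp a) (m : ℕ) : ∃ C : ℝ, 0 < C ∧ ∀ j M : ℕ, 2 ^ j ≤ M →
    ∑ n ∈ Ico (2 ^ j) M, a n ^ 2 ≤ C * (2 : ℝ) ^ (-(pe m * j)) := by
  obtain ⟨C, hC⟩ := ha.2 (1 / ((m : ℝ) + 2)) (by positivity)
  refine ⟨max C 1, lt_max_of_lt_right one_pos, fun j M hM => ?_⟩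
  have h1 := hC (2 ^ j) M Nat.one_le_two_pow hM
  have h2 : ((2 ^ j : ℕ) : ℝ) ^ (-1 + 1 / ((m : ℝ) + 2)) = (2 : ℝ) ^ (-(pe m * j)) := by
    rw [Nat.cast_pow, Nat.cast_ofNat, ← Real.rpow_natCast, ← Real.rpow_mul (by norm_num)]
    congr 1
    unfold pe
    ring
  rw [h2] at h1
  exact h1.trans (mul_le_mul_of_nonneg_right (le_max_left _ _) (Real.rpow_nonneg (by norm_num) _))

theorem T_UTA (hEVU : P_EVU) (hBLU : P_BLU) (hMOU : P_MOU) (hWAV : P_WAV) (hSUM : RO.P_SUM) :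
    P_UTA := by
  intro Ω _ P U hU a β g w A ha hw
  choose C hC0 hC using fun m => amp_block ha m
  have hev := fun m : ℕ => hEVU Ω P U hU a β g w A (pe m) (C m) ha.1 hw (pe_pos m) (pe_le m)
    (hC0 m) (hC m)
  filter_upwards [hMOU.2 Ω P U hU, ae_all_iff.2 hev] with ω hω1 hω2
  intro m
  obtain ⟨K₀, hK₀⟩ := hω2 m
  have hsq : ∀ n, 1 ≤ n → a n ^ 2 ≤ C m := by
    intro n hn
    have h1 := hC m 0 (n + 1) (by simp)
    have h2 : a n ^ 2 ≤ ∑ i ∈ Ico (2 ^ 0) (n + 1), a i ^ 2 :=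
      Finset.single_le_sum (f := fun i => a i ^ 2) (fun i _ => sq_nonneg _)
        (Finset.mem_Ico.2 ⟨by simpa using hn, Nat.lt_succ_self n⟩)
    refine h2.trans (h1.trans (le_of_eq ?_))
    simp
  obtain ⟨-, -, w3, w4, -⟩ := hWAV A g w (fun n => U n ω) a β hw hω1 ha.1
  obtain ⟨K, hK0, hK⟩ := hBLU (wv a β (om g w fun n => U n ω)) a A K₀ (pe m) (C m)
    (Real.sqrt (2 * C m * (A + 8)) + 2 * Real.sqrt (C m) * 4 ^ A) (pe_pos m) (pe_le m) (hC0 m)
    (by positivity) ha.1 hsq w3 w4 hK₀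
  obtain ⟨c, hc0, hc⟩ := hSUM (pe m) (pe_pos m)
  refine ⟨c * K, mul_nonneg hc0 hK0, fun J k t _ htk M M' hM hMM' hMt => ?_⟩
  obtain ⟨W, hW⟩ : ∃ W : ℕ → ℝ → ℝ, W = wv a β (om g w fun n => U n ω) := ⟨_, rfl⟩
  rw [← hW] at hK ⊢
  have hf : ∑ n ∈ Ico M M', W n t = ∑ n ∈ Ico M M', (if n < M' then W n t else 0) := by
    refine Finset.sum_congr rfl fun n hn => ?_
    rw [if_pos (Finset.mem_Ico.1 hn).2]
  rw [hf]
  refine hc (fun n => if n < M' then W n t else 0) K k hK0 (fun j M₁ h1 h2 => ?_) J M M' hM hMM'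
  by_cases hj : M' ≤ 2 ^ j
  · have h0 : ∑ n ∈ Ico (2 ^ j) M₁, (if n < M' then W n t else 0) = 0 := by
      refine Finset.sum_eq_zero fun n hn => ?_
      rw [if_neg (not_lt.2 (hj.trans (Finset.mem_Ico.1 hn).1))]
    rw [h0, abs_zero]
    positivity
  · rw [not_le] at hj
    have e : ∑ n ∈ Ico (2 ^ j) M₁, (if n < M' then W n t else 0) =
        ∑ n ∈ Ico (2 ^ j) (min M₁ M'), W n t := by
      rw [← Finset.sum_filter, Finset.Ico_filter_lt]
    rw [e]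
    have h2j : (2 : ℝ) ^ ((A + 2) * j) ≤ t := by
      refine le_trans ?_ hMt
      rw [mul_comm, pow_mul]
      refine pow_le_pow_left₀ (by positivity) ?_ _
      exact_mod_cast hj.le
    exact hK j k t h2j htk (min M₁ M') (le_min h1 hj.le) ((min_le_left _ _).trans h2)

end Pool.Agent.H92.FP
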